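import Pool.Agent.Results.MP_ec2323_pr.NoCutoff

set_option autoImplicit false

namespace Pool.Agent.Results.MP_c130e3_pr.Entropy

open Finset Filter Topology Matrix

noncomputable section

section
variable {S : Type} [Fintype S] [DecidableEq S] (Q : Matrix S S ℝ) (π : S → ℝ)

/-- `Q` generates an irreducible continuous-time chain, reversible for the probability `π`. -/
def IsRev : Prop := (∀ x y, x ≠ y → 0 ≤ Q x y) ∧ (∀ x, ∑ y, Q x y = 0) ∧
  (∀ x y, Relation.ReflTransGen (fun a b => a ≠ b ∧ 0 < Q a b) x y) ∧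
  (∀ x, 0 < π x) ∧ ∑ x, π x = 1 ∧ ∀ x y, π x * Q x y = π y * Q y x

/-- Worst-case relative entropy at time `t`. -/
def ent (t : ℝ) : ℝ := ⨆ x, ∑ y, NormedSpace.exp (t • Q) x y *
  Real.log (NormedSpace.exp (t • Q) x y / π y)

def tmix (ε : ℝ) : ℝ := sInf {t : ℝ | 0 ≤ t ∧ ent Q π t ≤ ε}
end

open MP_ec2323_pr.NoCutoff (wt wt0 wt_sum exp_sum ex)

lemma wt_one (s : ℝ) : HasSum (wt s) 1 := by simpa using wt_sum s 1

lemma wt_mean (s : ℝ) : HasSum (fun j => wt s j * j) s := by
  rw [← hasSum_nat_add_iff' 1]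
  have : (fun j : ℕ => wt s (j + 1) * ((j + 1 : ℕ) : ℝ)) = fun j => s * wt s j := by
    ext j; simp only [wt, Nat.factorial_succ]; push_cast; field_simp; ring
  rw [this]
  simpa using (wt_one s).mul_left s

lemma ent_low {S : Type} [Fintype S] [DecidableEq S] {h π : S → ℝ} (h0 : ∀ y, 0 ≤ h y)
    (h1 : ∑ y, h y = 1) (p0 : ∀ y, 0 < π y) (p1 : ∑ y, π y = 1) (A : Finset S) {L : ℝ}
    (hL : Real.exp L * ∑ y ∈ A, π y ≤ 1) :
    L * ∑ y ∈ A, h y - 1 ≤ ∑ y, h y * Real.log (h y / π y) := by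
  have a : ∀ y g, h y * g + h y - π y * Real.exp g ≤ h y * Real.log (h y / π y) := fun y g => by
    have := p0 y
    rcases (h0 y).eq_or_lt with e | e
    · rw [← e]; simp; positivity
    · have b := Real.log_le_sub_one_of_pos (show 0 < π y * Real.exp g / h y by positivity)
      rw [Real.log_div (by positivity) e.ne', Real.log_mul this.ne' (by positivity), Real.log_exp] at b
      rw [Real.log_div e.ne' this.ne']
      have := mul_le_mul_of_nonneg_left b e.le
      rw [mul_sub (h y) (_ / _), mul_div_cancel₀ _ e.ne'] at this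
      linarith
  refine le_trans ?_ (sum_le_sum fun y _ => a y (if y ∈ A then L else 0))
  have b : ∑ y, π y * Real.exp (if y ∈ A then L else 0) ≤
      ∑ y, ((if y ∈ A then Real.exp L * π y else 0) + π y) := sum_le_sum fun y _ => by
    have := p0 y
    split_ifs <;> simp [mul_comm, this.le]
  simp only [sum_add_distrib, sum_sub_distrib, mul_ite, mul_zero, sum_ite_mem, univ_inter, ← mul_sum,
    ← sum_mul, h1, p1] at b ⊢
  linarith

lemma ent_up {S : Type} [Fintype S] [DecidableEq S] {h π : S → ℝ} (h0 : ∀ y, 0 ≤ h y)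
    (h1 : ∑ y, h y = 1) (p0 : ∀ y, 0 < π y) (z : S) {V : ℝ} (hV : ∀ y, -Real.log (π y) ≤ V)
    (hz : -Real.log (π z) ≤ 1) : ∑ y, h y * Real.log (h y / π y) ≤ 1 + V * (1 - h z) := by
  have l : ∀ y, h y ≤ 1 := fun y => h1 ▸ single_le_sum (fun y _ => h0 y) (mem_univ y)
  have a : ∀ y, h y * Real.log (h y / π y) ≤ h y * -Real.log (π y) := fun y => by
    rcases (h0 y).eq_or_lt with e | e
    · simp [← e]
    · rw [Real.log_div e.ne' (p0 y).ne']
      nlinarith [Real.log_nonpos e.le (l y)]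
  refine (sum_le_sum fun y _ => a y).trans ?_
  rw [← add_sum_erase _ _ (mem_univ z)] at h1 ⊢
  have := sum_le_sum (s := univ.erase z) fun y _ => mul_le_mul_of_nonneg_left (hV y) (h0 y)
  rw [← sum_mul, eq_sub_of_add_eq' h1] at this
  nlinarith [mul_le_mul_of_nonneg_left hz (h0 z), l z]

variable (m : ℕ)

abbrev St := Fin (8 * m + 1)
def β : ℝ := 2 ^ (4 * m + 6)
def δ : ℝ := (8 * m + 1) / β m
def pp : ℝ := 14 / (m : ℝ) ^ 2
def a (x y : St m) : ℝ := (if y.1 = x.1 + 1 then (if x.1 = 4 * m then pp m else 1 - δ m) else 0) +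
  if x.1 = 4 * m ∧ y = Fin.last _ then 1 - pp m - δ m else 0
def b (x y : St m) : ℝ := β m ^ y.1 * a m y x / β m ^ x.1
def K : Matrix (St m) (St m) ℝ := fun x y =>
  a m x y + b m x y + if x = y then 1 - ∑ z, a m x z - ∑ z, b m x z else 0
def pi (x : St m) : ℝ := β m ^ x.1 / ∑ y : St m, β m ^ y.1

variable {m}

lemma β2 : 2 ≤ β m := le_self_pow₀ (by norm_num) (by omega)
lemma β0 : 0 < β m := by linarith [β2 (m := m)]
lemma δ0 : 0 < δ m := div_pos (by positivity) β0
lemma βm : 64 * (m : ℝ) ^ 4 ≤ β m := by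
  have : (m : ℝ) ≤ 2 ^ m := by exact_mod_cast Nat.lt_two_pow_self.le
  calc _ ≤ 64 * ((2 : ℝ) ^ m) ^ 4 := by gcongr
    _ = _ := by rw [β]; ring

variable (hm : 10 ≤ m)
include hm

lemma δm : δ m * (4 * m + 2) ≤ 1 / (m : ℝ) ^ 2 := by
  have : (10 : ℝ) ≤ m := by exact_mod_cast hm
  rw [δ, div_mul_eq_mul_div, div_le_div_iff₀ β0 (by positivity)]
  nlinarith [βm (m := m), mul_le_mul_of_nonneg_right (show (8 * m + 1) * (4 * m + 2) ≤ 64 * (m : ℝ) ^ 2
    by nlinarith) (sq_nonneg (m : ℝ))]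
lemma m2 : 1 / (m : ℝ) ^ 2 ≤ 1 / 10 ^ 2 := by gcongr; exact_mod_cast hm
lemma δ1 : δ m * (8 * m) ≤ 1 / 50 := by nlinarith [δm hm, m2 hm, δ0 (m := m)]
lemma δ2 : δ m ≤ 1 / 50 := by
  have : (10 : ℝ) ≤ m := by exact_mod_cast hm
  nlinarith [δ1 hm, δ0 (m := m)]
lemma p0 : 0 < pp m := by have : 0 < m := by omega
                          unfold pp; positivity
lemma p1 : pp m ≤ 1 / 5 := by
  have := m2 hm
  rw [pp, div_eq_mul_one_div]; linarith

lemma a0 (x y : St m) : 0 ≤ a m x y := by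
  have := p0 hm; have := p1 hm; have := δ2 hm
  unfold a; split_ifs <;> linarith

lemma a1 (x y : St m) : a m x y ≤ 1 := by
  have := p0 hm; have := p1 hm; have := δ0 (m := m)
  unfold a; split_ifs <;> first | linarith | omega

lemma alt {x y : St m} (h : a m x y ≠ 0) : x.1 < y.1 := by
  by_contra h'
  refine h ?_
  rw [a, if_neg (by omega), if_neg, add_zero]
  rintro ⟨e, rfl⟩
  simp at h'; omega

lemma asum (x : St m) : ∑ y, a m x y = if x = Fin.last _ then 0 else 1 - δ m := by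
  split_ifs with h
  · exact sum_eq_zero fun y _ => by_contra fun e => by have := alt hm e; subst h; simp at this; omega
  · have : x.1 + 1 < 8 * m + 1 := by have := Fin.val_lt_last h; omega
    have e : ∀ y : St m, y.1 = x.1 + 1 ↔ y = ⟨_, this⟩ := fun y => by simp [Fin.ext_iff]
    simp only [a, sum_add_distrib, e, sum_ite_eq', mem_univ, if_true]
    by_cases h' : x.1 = 4 * m
    · simp [h']; ring
    · simp [h']

lemma b0 (x y : St m) : 0 ≤ b m x y := div_nonneg (mul_nonneg (pow_pos β0 _).le (a0 hm _ _))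
  (pow_pos β0 _).le

lemma b1 (x y : St m) : b m x y * (1 / 2) ^ y.1 ≤ 2 / β m * (1 / 2) ^ x.1 ∧ b m x y ≤ 1 / β m := by
  have := β0 (m := m)
  by_cases h : a m y x = 0
  · simp only [b, h, mul_zero, zero_div, zero_mul]; constructor <;> positivity
  obtain ⟨s, hs⟩ := Nat.exists_eq_add_of_lt (alt hm h)
  have e : b m x y ≤ 1 / β m * (1 / 2) ^ s := by
    rw [b, hs, show β m ^ (y.1 + s + 1) = β m ^ y.1 * (β m * β m ^ s) by ring,
      mul_div_mul_left _ _ (by positivity), _root_.one_div_pow, one_div_mul_one_div]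
    exact div_le_div₀ (by norm_num) (a1 hm _ _) (by positivity) (by gcongr; exact β2)
  refine ⟨(mul_le_mul_of_nonneg_right e (by positivity)).trans (le_of_eq ?_),
    e.trans (mul_le_of_le_one_right (by positivity) (pow_le_one₀ (by norm_num) (by norm_num)))⟩
  rw [hs]; ring

lemma bsum (x : St m) : ∑ y, b m x y ≤ δ m :=
  (sum_le_card_nsmul _ _ _ fun y _ => (b1 hm x y).2).trans (by simp [δ, div_eq_mul_inv])

lemma hold (x : St m) : 0 ≤ 1 - ∑ z, a m x z - ∑ z, b m x z := by
  have := bsum hm x; have := δ2 hm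
  rw [asum hm]; split_ifs <;> linarith

lemma Ka (x y : St m) : a m x y + b m x y ≤ K m x y :=
  le_add_of_nonneg_right (by split_ifs; exacts [hold hm x, le_rfl])
lemma Ka' (x y : St m) : a m x y ≤ K m x y := (le_add_of_nonneg_right (b0 hm _ _)).trans (Ka hm x y)
lemma K0 (x y : St m) : 0 ≤ K m x y := (a0 hm _ _).trans (Ka' hm x y)
omit hm in
lemma K1 (x : St m) : ∑ y, K m x y = 1 := by simp [K, sum_add_distrib]
lemma Kl : 1 - δ m ≤ K m (Fin.last _) (Fin.last _) := by
  have := bsum hm (Fin.last _); have := a0 hm (Fin.last _) (Fin.last _)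
  have := b0 hm (Fin.last _) (Fin.last _)
  rw [K, if_pos rfl, asum hm, if_pos rfl]; linarith

lemma Kp0 (j : ℕ) (x y : St m) : 0 ≤ (K m ^ j) x y := by
  induction j generalizing y with
  | zero => simp only [pow_zero, one_apply]; split_ifs <;> norm_num
  | succ j ih => rw [pow_succ, mul_apply]; exact sum_nonneg fun z _ => mul_nonneg (ih z) (K0 hm _ _)
omit hm in
lemma Kp1 (j : ℕ) (x : St m) : ∑ y, (K m ^ j) x y = 1 := by
  induction j with
  | zero => simp [one_apply]
  | succ j ih => simp only [pow_succ, mul_apply]; rw [sum_comm]; simp only [← mul_sum, K1, mul_one, ih]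

omit hm in
lemma Z0 : 0 < ∑ y : St m, β m ^ y.1 := sum_pos (fun _ _ => pow_pos β0 _) univ_nonempty
omit hm in
lemma pi0 (x : St m) : 0 < pi m x := div_pos (pow_pos β0 _) Z0
omit hm in
lemma pi1 : ∑ x, pi m x = 1 := by simp only [pi, ← sum_div]; exact div_self Z0.ne'
omit hm in
lemma rev (x y : St m) : pi m x * K m x y = pi m y * K m y x := by
  by_cases h : x = y
  · rw [h]
  have := β0 (m := m)
  simp only [pi, K, b, if_neg h, if_neg (Ne.symm h)]
  field_simp
  ring

lemma fw (x y : St m) (h : y.1 = x.1 + 1) : (if x.1 = 4 * m then pp m else 1 - δ m) ≤ a m x y := by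
  have := p1 hm; have := δ2 hm
  rw [a, if_pos h]
  exact le_add_of_nonneg_right (by split_ifs <;> linarith)

lemma isRev : IsRev (K m - 1) (pi m) := by
  have s : ∀ x y : St m, y.1 = x.1 + 1 → (x ≠ y ∧ 0 < (K m - 1) x y) ∧ y ≠ x ∧ 0 < (K m - 1) y x := by
    intro x y h
    have n : x ≠ y := fun e => by rw [e] at h; omega
    have c : 0 < a m x y := lt_of_lt_of_le (by have := p0 hm; have := δ2 hm; split_ifs <;> linarith)
      (fw hm x y h)
    have c' : 0 < b m y x := div_pos (mul_pos (pow_pos β0 _) c) (pow_pos β0 _)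
    simp only [Matrix.sub_apply, one_apply_ne n, one_apply_ne n.symm, sub_zero]
    exact ⟨⟨n, c.trans_le (Ka' hm _ _)⟩, n.symm, by linarith [Ka hm y x, a0 hm y x]⟩
  have r : ∀ x : St m, Relation.ReflTransGen (fun a b => a ≠ b ∧ 0 < (K m - 1) a b) 0 x ∧
      Relation.ReflTransGen (fun a b => a ≠ b ∧ 0 < (K m - 1) a b) x 0 := fun x => by
    induction x using Fin.induction with
    | zero => exact ⟨.refl, .refl⟩
    | succ i ih => exact ⟨ih.1.tail (s _ _ rfl).1, .head (s _ _ rfl).2 ih.2⟩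
  refine ⟨fun x y h => ?_, fun x => by simp [K1, one_apply], fun x y => (r x).2.trans (r y).1, pi0,
    pi1, fun x y => ?_⟩
  · simpa [one_apply_ne h] using K0 hm x y
  · by_cases h : x = y
    · rw [h]
    · simp [one_apply_ne h, one_apply_ne (Ne.symm h), rev x y]

lemma gap {l : ℝ} (hl : l ≠ 0) {f : St m → ℝ} (hf : f ≠ 0) (e : -(K m - 1) *ᵥ f = l • f) :
    1 / 4 ≤ l := by
  have e1 : ∀ x, ∑ y, K m x y * f y = (1 - l) * f x := fun x => by
    have := congrFun e x
    rw [neg_sub, sub_mulVec, one_mulVec] at this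
    simp only [Pi.sub_apply, Pi.smul_apply, smul_eq_mul, mulVec, dotProduct] at this
    linarith
  clear e
  wlog z : f (Fin.last _) ≤ 0 generalizing f
  · exact this (neg_ne_zero.2 hf) (fun x => by simp [e1]) (by simpa using (not_le.1 z).le)
  have e2 : ∑ x, pi m x * f x = 0 := by
    have := sum_congr rfl fun x (_ : x ∈ univ) => congrArg (pi m x * ·) (e1 x)
    have r : ∀ x y, pi m x * (K m x y * f y) = pi m y * f y * K m y x := fun x y => by
      rw [← mul_assoc, rev]; ring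
    have r' : ∀ x, pi m x * ((1 - l) * f x) = pi m x * f x * (1 - l) := fun x => by ring
    simp only [mul_sum, r, r'] at this
    rw [sum_comm] at this
    simp only [← mul_sum, K1, mul_one, ← sum_mul] at this
    exact (mul_eq_zero.1 (by linarith : _ * l = 0)).resolve_right hl
  obtain ⟨x, -, hx⟩ := exists_max_image univ (fun x : St m => f x / (1 / 2) ^ x.1) univ_nonempty
  obtain ⟨M, hM⟩ : ∃ M, M = f x / (1 / 2) ^ x.1 := ⟨_, rfl⟩
  have fx : f x = M * (1 / 2) ^ x.1 := by rw [hM]; field_simp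
  have fy : ∀ y, f y ≤ M * (1 / 2) ^ y.1 := fun y =>
    (div_le_iff₀ (by positivity)).1 (hM ▸ hx y (mem_univ _))
  have M0 : 0 < M := by
    by_contra! h
    refine hf (funext fun y => ?_)
    have n : ∀ y, pi m y * f y ≤ 0 := fun y => mul_nonpos_of_nonneg_of_nonpos (pi0 y).le
      ((fy y).trans (mul_nonpos_of_nonpos_of_nonneg h (by positivity)))
    exact (mul_eq_zero.1 ((sum_eq_zero_iff_of_nonpos fun y _ => n y).1 e2 y (mem_univ _))).resolve_left
      (pi0 y).ne'
  have W0 : (0 : ℝ) < (1 / 2) ^ x.1 := by positivity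
  have xl : x ≠ Fin.last _ := fun h => by rw [← h, fx] at z; nlinarith
  have s1 : ∑ y, a m x y * (1 / 2) ^ y.1 ≤ ∑ y, a m x y * ((1 / 2) ^ x.1 / 2) := sum_le_sum fun y _ => by
    by_cases h : a m x y = 0
    · simp [h]
    · refine mul_le_mul_of_nonneg_left ?_ (a0 hm _ _)
      rw [div_eq_mul_one_div (_ ^ _), ← pow_succ]
      exact pow_le_pow_of_le_one (by norm_num) (by norm_num) (alt hm h)
  have s2 : ∑ y, b m x y * (1 / 2) ^ y.1 ≤ 2 * δ m * (1 / 2) ^ x.1 :=
    (sum_le_card_nsmul _ _ _ fun y _ => (b1 hm x y).1).trans (le_of_eq (by simp [δ]; ring))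
  have s3 : ∑ y, K m x y * f y ≤ M * ∑ y, K m x y * (1 / 2) ^ y.1 := by
    rw [mul_sum]
    exact sum_le_sum fun y _ => by nlinarith [mul_le_mul_of_nonneg_left (fy y) (K0 hm x y)]
  have s4 := sum_nonneg fun y (_ : y ∈ univ) => b0 hm x y
  rw [e1, fx] at s3
  simp only [K, add_mul, sum_add_distrib, ite_mul, zero_mul, sum_ite_eq, mem_univ, if_true] at s3
  rw [← sum_mul, asum hm, if_neg xl] at s1
  rw [asum hm, if_neg xl] at s3
  have := δ2 hm; have := δ0 (m := m)
  have s5 : (1 - l) * (1 / 2) ^ x.1 ≤ 3 / 4 * (1 / 2 : ℝ) ^ x.1 := by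
    refine le_of_mul_le_mul_left ((le_of_eq (by ring)).trans (s3.trans ?_)) M0
    gcongr
    nlinarith
  linarith [le_of_mul_le_mul_right s5 W0]

lemma Kstep (j : ℕ) (x y z : St m) : K m x y * (K m ^ j) y z ≤ (K m ^ (j + 1)) x z := by
  rw [pow_succ', mul_apply]
  exact single_le_sum (f := fun y => K m x y * (K m ^ j) y z)
    (fun y _ => mul_nonneg (K0 hm _ _) (Kp0 hm _ _ _)) (mem_univ y)

lemma hit (j : ℕ) : ∀ x : St m, (4 * m < x.1 → 8 * m ≤ x.1 + j → (1 - δ m) ^ j ≤ (K m ^ j) x (Fin.last _)) ∧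
    (x.1 ≤ 4 * m → 4 * m < x.1 + j → (1 - pp m - δ m) * (1 - δ m) ^ j ≤ (K m ^ j) x (Fin.last _)) := by
  have d0 := δ0 (m := m); have d1 := δ2 hm; have q0 := p0 hm; have q1 := p1 hm
  induction j with
  | zero =>
    refine fun x => ⟨fun _ h => ?_, fun _ _ => by omega⟩
    rw [show x = Fin.last _ from Fin.ext (by simp; omega)]; simp
  | succ j ih =>
    have l := (ih (Fin.last _)).1 (by simp; omega) (by simp)
    have w : 0 ≤ (1 - δ m) ^ j := pow_nonneg (by linarith) _
    have nx : ∀ x : St m, x.1 ≠ 4 * m → ∀ h : x.1 + 1 < 8 * m + 1, 1 - δ m ≤ K m x ⟨_, h⟩ :=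
      fun x h h' => le_trans (by rw [if_neg h]) ((fw hm x ⟨_, h'⟩ rfl).trans (Ka' hm _ _))
    refine fun x => ⟨fun h1 h2 => ?_, fun h1 h2 => ?_⟩
    · rw [pow_succ']
      by_cases h : x.1 + 1 < 8 * m + 1
      · exact (mul_le_mul (nx x (by omega) h) ((ih ⟨_, h⟩).1 (by simp; omega) (by simp; omega)) w
          (K0 hm _ _)).trans (Kstep hm _ _ _ _)
      · rw [show x = Fin.last _ from Fin.ext (by simp; omega)]
        exact (mul_le_mul (Kl hm) l w (K0 hm _ _)).trans (Kstep hm _ _ _ _)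
    · by_cases h : x.1 = 4 * m
      · have c : 1 - pp m - δ m ≤ K m x (Fin.last _) := by
          refine le_trans ?_ (Ka' hm _ _)
          rw [a, if_neg (by simp; omega), if_pos ⟨h, rfl⟩, zero_add]
        refine le_trans ?_ ((mul_le_mul c l w (K0 hm _ _)).trans (Kstep hm _ _ _ _))
        rw [pow_succ]
        gcongr
        · linarith
        · exact mul_le_of_le_one_right w (by linarith)
      · have h' : x.1 + 1 < 8 * m + 1 := by omega
        rw [pow_succ', mul_left_comm]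
        exact (mul_le_mul (nx x h h') ((ih ⟨_, h'⟩).2 (by simp; omega) (by simp; omega))
          (mul_nonneg (by linarith) w) (K0 hm _ _)).trans (Kstep hm _ _ _ _)

lemma hit' (j : ℕ) (hj : 4 * m + 1 ≤ j) (x : St m) :
    1 - 15 / (m : ℝ) ^ 2 ≤ (K m ^ j) x (Fin.last _) := by
  have d0 := δ0 (m := m); have d1 := δ2 hm; have q0 := p0 hm; have q1 := p1 hm
  have c : ∀ y, 1 - 15 / (m : ℝ) ^ 2 ≤ (K m ^ (4 * m + 1)) y (Fin.last _) := fun y => by
    have b := one_add_mul_le_pow (a := -δ m) (by linarith) (4 * m + 1)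
    have w : 0 ≤ (1 - δ m) ^ (4 * m + 1) := pow_nonneg (by linarith) _
    have e : 15 / (m : ℝ) ^ 2 = pp m + 1 / (m : ℝ) ^ 2 := by rw [pp]; ring
    have f := δm hm
    have u : (1 - δ m) ^ (4 * m + 1) ≤ 1 := pow_le_one₀ (by linarith) (by linarith)
    rw [← sub_eq_add_neg] at b
    push_cast at b
    rcases le_or_gt y.1 (4 * m) with h | h
    · refine le_trans ?_ ((hit hm _ y).2 h (by omega))
      nlinarith
    · refine le_trans ?_ ((hit hm _ y).1 h (by omega))
      nlinarith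
  obtain ⟨i, rfl⟩ := Nat.exists_eq_add_of_le' hj
  rw [pow_add, mul_apply]
  refine le_trans ?_ (sum_le_sum fun y _ => mul_le_mul_of_nonneg_left (c y) (Kp0 hm _ _ _))
  rw [← sum_mul, Kp1, one_mul]

lemma path (j : ℕ) (h : j < 8 * m + 1) :
    (if j ≤ 4 * m then 1 else pp m) * (1 - δ m) ^ j ≤ (K m ^ j) 0 ⟨j, h⟩ := by
  have d0 := δ0 (m := m); have d1 := δ2 hm; have q0 := p0 hm; have q1 := p1 hm
  induction j with
  | zero => simp [one_apply]
  | succ j ih =>
    have w : 0 ≤ (1 - δ m) ^ j := pow_nonneg (by linarith) _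
    have c := (fw hm ⟨j, by omega⟩ ⟨j + 1, h⟩ rfl).trans (Ka' hm _ _)
    have e := single_le_sum (f := fun y => (K m ^ j) 0 y * K m y ⟨j + 1, h⟩)
      (fun y _ => mul_nonneg (Kp0 hm _ _ _) (K0 hm _ _)) (mem_univ ⟨j, by omega⟩)
    rw [pow_succ (K m), mul_apply]
    refine le_trans ?_ ((mul_le_mul (ih (by omega)) c (by split_ifs <;> linarith)
      (Kp0 hm _ _ _)).trans e)
    rw [pow_succ]
    dsimp only
    split_ifs <;> first | omega | nlinarith [mul_nonneg w q0.le]

omit hm in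
lemma hs (t : ℝ) (x y : St m) : HasSum (fun j => wt t j * (K m ^ j) x y)
    (NormedSpace.exp (t • (K m - 1)) x y) := exp_sum _ _ _ _
lemma H0 {t : ℝ} (ht : 0 ≤ t) (x y : St m) : 0 ≤ NormedSpace.exp (t • (K m - 1)) x y :=
  (hs t x y).nonneg fun j => mul_nonneg (wt0 ht j) (Kp0 hm _ _ _)
omit hm in
lemma H1 (t : ℝ) (x : St m) : ∑ y, NormedSpace.exp (t • (K m - 1)) x y = 1 := by
  have a := hasSum_sum (s := univ) fun y _ => hs t x y
  simp only [← mul_sum, Kp1, mul_one] at a
  exact a.unique (wt_one t)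

lemma Zle : ∑ y : St m, β m ^ y.1 ≤ 2 * β m ^ (8 * m) := by
  have b0 := β0 (m := m)
  have b1 : ∀ y : Fin (8 * m), β m ^ y.1 ≤ β m ^ (8 * m) / β m := fun y => by
    rw [le_div_iff₀ b0, ← pow_succ]
    exact pow_le_pow_right₀ (by linarith [β2 (m := m)]) y.2
  have := sum_le_card_nsmul univ _ _ fun y _ => b1 y
  have c : (8 * m : ℝ) / β m ≤ 1 := by
    have := δ2 hm
    rw [δ, add_div] at this
    linarith [one_div_pos.2 b0]
  rw [Fin.sum_univ_castSucc]
  simp only [card_univ, Fintype.card_fin, nsmul_eq_mul, Fin.val_castSucc, Fin.val_last] at this ⊢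
  push_cast at this
  rw [show 8 * (m : ℝ) * (β m ^ (8 * m) / β m) = 8 * m / β m * β m ^ (8 * m) by ring] at this
  nlinarith [pow_pos b0 (8 * m)]

lemma upper {t : ℝ} (ht : 5 * m ≤ t) : ent (K m - 1) (pi m) t ≤ 30000 := by
  have m0 : (10 : ℝ) ≤ m := by exact_mod_cast hm
  have b0 := β0 (m := m)
  have l2 := Real.log_two_lt_d9
  have lp : ∀ y : St m, -Real.log (pi m y) ≤ Real.log (2 * β m ^ (8 * m) / β m ^ y.1) := fun y => by
    rw [← Real.log_inv, pi, inv_div]
    exact Real.log_le_log (div_pos Z0 (by positivity)) (by gcongr; exact Zle hm)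
  refine ciSup_le fun x => (ent_up (H0 hm (by linarith) x) (H1 t x) pi0 (Fin.last _)
    (V := 40 * m ^ 2) (fun y => (lp y).trans ?_) ((lp _).trans ?_)).trans ?_
  · refine (Real.log_le_log (by positivity) (div_le_self (by positivity)
      (one_le_pow₀ (by linarith [β2 (m := m)])))).trans ?_
    rw [β, ← pow_mul, ← pow_succ', Real.log_pow]
    push_cast
    nlinarith [Real.log_pos one_lt_two]
  · rw [Fin.val_last, mul_div_cancel_right₀ _ (by positivity)]; linarith
  · have e := ((wt_one t).mul_right (1 - 15 / (m : ℝ) ^ 2)).sub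
      ((wt_sum t (9 / 10)).div_const ((9 / 10) ^ (4 * m)))
    have f := hasSum_le (fun j => ?_) e (hs t x (Fin.last _))
    · have g : Real.exp (t * (9 / 10 - 1)) / (9 / 10) ^ (4 * m) ≤ Real.exp (-(m / 18)) := by
        rw [div_le_iff₀ (by positivity)]
        have : Real.exp (-(1 / 9)) ^ (4 * m) ≤ (9 / 10) ^ (4 * m) :=
          pow_le_pow_left₀ (by positivity) ((ex _ (by norm_num)).trans (by norm_num)) _
        refine le_trans ?_ (mul_le_mul_of_nonneg_left this (by positivity))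
        rw [← Real.exp_nat_mul, ← Real.exp_add, Real.exp_le_exp]
        push_cast
        linarith
      have g2 : (m : ℝ) ^ 2 * Real.exp (-(m / 18)) ≤ 648 := by
        have := Real.pow_div_factorial_le_exp (m / 18 : ℝ) (by positivity) 2
        rw [Real.exp_neg, ← div_eq_mul_inv, div_le_iff₀ (by positivity)]
        norm_num [Nat.factorial] at this
        nlinarith
      have g3 : (m : ℝ) ^ 2 * (15 / m ^ 2) = 15 := by field_simp
      nlinarith [sq_nonneg (m : ℝ)]
    rw [mul_div_assoc, ← mul_sub]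
    refine mul_le_mul_of_nonneg_left ?_ (wt0 (by linarith) j)
    rcases le_or_gt j (4 * m) with hj | hj
    · refine le_trans ?_ (Kp0 hm _ _ _)
      have : (1 : ℝ) ≤ (9 / 10) ^ j / (9 / 10) ^ (4 * m) := by
        rw [le_div_iff₀ (by positivity), one_mul]
        exact pow_le_pow_of_le_one (by norm_num) (by norm_num) hj
      linarith [show (0 : ℝ) ≤ 15 / m ^ 2 by positivity]
    · exact (sub_le_self _ (by positivity)).trans (hit' hm j hj x)

lemma lower {t c : ℝ} (ht : 0 ≤ t) {J : ℕ} (J0 : 0 < J) (hJ : J ≤ 7 * m) (c0 : 0 ≤ c)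
    (hc : ∀ j ≤ J, c ≤ if j ≤ 4 * m then 1 else pp m) :
    m ^ 2 * c * (1 - t / J) - 1 ≤ ent (K m - 1) (pi m) t := by
  have m0 : (10 : ℝ) ≤ m := by exact_mod_cast hm
  have b0 := β0 (m := m)
  refine le_trans ?_ (le_ciSup (Finite.bddAbove_range _) 0)
  refine le_trans ?_ (ent_low (H0 hm ht 0) (H1 t 0) pi0 pi1 (univ.filter fun y => y.1 ≤ 7 * m)
    (L := 2 * m ^ 2) ?_)
  · have e := ((wt_one t).sub ((wt_mean t).div_const J)).mul_right (c / 2)
    have f := hasSum_le (fun j => ?_) e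
      (hasSum_sum (s := univ.filter fun y : St m => y.1 ≤ 7 * m) fun y _ => hs t 0 y)
    · nlinarith [sq_nonneg (m : ℝ)]
    have J1 : (0 : ℝ) < J := by exact_mod_cast J0
    rw [← mul_sum, mul_div_assoc, ← mul_one_sub, mul_assoc]
    refine mul_le_mul_of_nonneg_left ?_ (wt0 ht j)
    rcases le_or_gt j J with hj | hj
    · have g := single_le_sum (f := fun y => (K m ^ j) 0 y) (fun y _ => Kp0 hm _ _ _)
        (s := univ.filter fun y : St m => y.1 ≤ 7 * m) (a := ⟨j, by omega⟩) (by simp; omega)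
      have g1 := one_add_mul_le_pow (a := -δ m) (by linarith [δ2 hm]) j
      have g2 : (j : ℝ) ≤ 8 * m := by exact_mod_cast (by omega : j ≤ 8 * m)
      have g3 : 1 / 2 ≤ (1 - δ m) ^ j := by
        rw [← sub_eq_add_neg] at g1
        nlinarith [δ1 hm, δ0 (m := m)]
      have g4 := mul_le_mul (hc j hj) g3 (by norm_num) (c0.trans (hc j hj))
      have g5 : (0 : ℝ) ≤ j / J := by positivity
      nlinarith [path hm j (by omega)]
    · refine le_trans ?_ (sum_nonneg fun _ _ => Kp0 hm _ _ _)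
      have : (1 : ℝ) ≤ j / J := by rw [le_div_iff₀ J1, one_mul]; exact_mod_cast hj.le
      nlinarith
  · have z : β m ^ (8 * m) ≤ ∑ y : St m, β m ^ y.1 :=
      single_le_sum (f := fun y : St m => β m ^ y.1) (fun _ _ => by positivity) (mem_univ (Fin.last _))
    have s : ∑ y ∈ univ.filter fun y : St m => y.1 ≤ 7 * m, pi m y ≤ (8 * m + 1) * (1 / β m ^ m) := by
      refine (sum_le_card_nsmul _ _ (1 / β m ^ m) fun y hy => ?_).trans ?_
      · rw [pi, div_le_div_iff₀ Z0 (by positivity), ← pow_add, one_mul]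
        exact (pow_le_pow_right₀ (by linarith [β2 (m := m)]) (by simp at hy; omega)).trans z
      · rw [nsmul_eq_mul]
        gcongr
        exact_mod_cast (card_le_univ _).trans (by simp)
    refine (mul_le_mul_of_nonneg_left s (by positivity)).trans ?_
    rw [mul_one_div, ← mul_div_assoc, div_le_one (by positivity)]
    have e1 : Real.exp (2 * m ^ 2) ≤ 2 ^ (4 * m * m) := by
      rw [show (2 : ℝ) * m ^ 2 = (2 * m * m : ℕ) * 1 by push_cast; ring, Real.exp_nat_mul,
        show 4 * m * m = 2 * (2 * m * m) by ring, pow_mul (2 : ℝ) 2]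
      exact pow_le_pow_left₀ (by positivity) (by linarith [Real.exp_one_lt_d9]) _
    have e2 : (8 * m + 1 : ℝ) ≤ 2 ^ (6 * m) := by
      have : 8 * m + 1 ≤ 2 ^ (6 * m) := by
        have := Nat.lt_two_pow_self (n := m)
        calc _ ≤ 2 ^ m * 2 ^ 4 := by omega
          _ = 2 ^ (m + 4) := by ring
          _ ≤ _ := Nat.pow_le_pow_right (by norm_num) (by omega)
      exact_mod_cast this
    rw [β, ← pow_mul, show (4 * m + 6) * m = 4 * m * m + 6 * m by ring, pow_add]
    gcongr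

lemma low1 {t : ℝ} (ht : 0 ≤ t) (h : t ≤ 2 * m) : m ^ 2 / 2 - 1 ≤ ent (K m - 1) (pi m) t := by
  have m0 : (10 : ℝ) ≤ m := by exact_mod_cast hm
  refine le_trans ?_ (lower hm ht (J := 4 * m) (c := 1) (by omega) (by omega) (by norm_num)
    fun j hj => by rw [if_pos hj])
  have : t / (4 * m : ℕ) ≤ 1 / 2 := by push_cast; rw [div_le_iff₀ (by linarith)]; linarith
  nlinarith [sq_nonneg (m : ℝ)]

lemma low2 {t : ℝ} (ht : 0 ≤ t) (h : t ≤ 6 * m) : 1 ≤ ent (K m - 1) (pi m) t := by
  have m0 : (10 : ℝ) ≤ m := by exact_mod_cast hm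
  refine le_trans ?_ (lower hm ht (J := 7 * m) (c := pp m) (by omega) le_rfl (p0 hm).le
    fun j hj => by have := p1 hm; split_ifs <;> linarith)
  have : t / (7 * m : ℕ) ≤ 6 / 7 := by push_cast; rw [div_le_iff₀ (by linarith)]; linarith
  have e : (m : ℝ) ^ 2 * pp m = 14 := by rw [pp]; field_simp
  rw [e]; linarith

omit hm in
/-- Reversible chains with spectral gap at least `1/4` and diverging entropic mixing time that
have no cutoff in relative entropy. -/
theorem result : ∃ (S : ℕ → Type) (_ : ∀ n, Fintype (S n)) (_ : ∀ n, DecidableEq (S n))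
    (Q : ∀ n, Matrix (S n) (S n) ℝ) (π : ∀ n, S n → ℝ) (ε : ℝ),
    (∀ n, IsRev (Q n) (π n)) ∧ 0 < ε ∧
    Tendsto (fun n => ent (Q n) (π n) 0) atTop atTop ∧
    (∀ n (l : ℝ) (f : S n → ℝ), l ≠ 0 → f ≠ 0 → -Q n *ᵥ f = l • f → 1 / 4 ≤ l) ∧
    Tendsto (fun n => tmix (Q n) (π n) ε) atTop atTop ∧
    ∃ δ : ℝ, 0 < δ ∧ δ < 1 ∧
      ¬ Tendsto (fun n => ent (Q n) (π n) ((1 + δ) * tmix (Q n) (π n) ε)) atTop (𝓝 0) := by
  have hm : ∀ n, 10 ≤ n + 300 := fun n => by omega
  have t1 : ∀ n : ℕ, 2 * ((n + 300 : ℕ) : ℝ) ≤ tmix (K (n + 300) - 1) (pi (n + 300)) 30000 := fun n => by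
    refine le_csInf ⟨_, by positivity, upper (hm n) le_rfl⟩ ?_
    rintro t ⟨h0, h1⟩
    by_contra! h
    have := low1 (hm n) h0 h.le
    have : (300 : ℝ) ≤ (n + 300 : ℕ) := by exact_mod_cast Nat.le_add_left _ _
    nlinarith
  have t2 : ∀ n : ℕ, tmix (K (n + 300) - 1) (pi (n + 300)) 30000 ≤ 5 * ((n + 300 : ℕ) : ℝ) := fun n =>
    csInf_le ⟨0, fun _ h => h.1⟩ ⟨by positivity, upper (hm n) le_rfl⟩
  refine ⟨fun n => St (n + 300), inferInstance, inferInstance, fun n => K (n + 300) - 1,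
    fun n => pi (n + 300), 30000, fun n => isRev (hm n), by norm_num, ?_,
    fun n l f a b c => gap (hm n) a b c, ?_, 1 / 5, by norm_num, by norm_num, fun h => ?_⟩
  · refine tendsto_atTop_mono (fun n => le_trans ?_ (low1 (hm n) le_rfl (by positivity)))
      tendsto_natCast_atTop_atTop
    push_cast
    nlinarith [(Nat.cast_nonneg n : (0 : ℝ) ≤ n)]
  · refine tendsto_atTop_mono (fun n => le_trans ?_ (t1 n)) tendsto_natCast_atTop_atTop
    push_cast
    linarith [(Nat.cast_nonneg n : (0 : ℝ) ≤ n)]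
  · refine absurd (ge_of_tendsto' h fun n => low2 (hm n) ?_ ?_) (by norm_num)
    · exact mul_nonneg (by norm_num) (le_trans (by positivity) (t1 n))
    · linarith [t2 n]

end

end Pool.Agent.Results.MP_c130e3_pr.Entropy
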